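import Pool.Agent.H56.Ramsey.Cert

/-!
Kernel-checkable lower bounds of
`la e^(y + t z) - w0 - w1 y - w2 z - om y z e^(mu y + mv z)` on rectangles.
-/

open Finset

namespace Pool.Agent.H56.RM

open Pool.Agent.H56.Ramsey

/-- the function -/
noncomputable def FF (t w0 w1 w2 om mu mv la y z : ℝ) : ℝ :=
  la * Real.exp (y + t * z) - w0 - w1 * y - w2 * z - om * (y * z * Real.exp (mu * y + mv * z))

theorem exp_quad {x : ℝ} (hx : |x| ≤ 1) : |Real.exp x - (1 + x + x ^ 2 / 2)| ≤ 2 / 9 * |x| ^ 3 := by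
  have h := Real.exp_bound hx (n := 3) (by norm_num)
  simp only [sum_range_succ, range_zero, sum_empty, Nat.factorial] at h
  norm_num at h
  have e : Real.exp x - (1 + x + x ^ 2 / 2) = Real.exp x - (1 + x + x ^ 2 / 2) := rfl
  rw [e]
  linarith [h]

section real

variable (t w0 w1 w2 mu mv E G y z : ℝ)

/-- coefficient -/
def r00 : ℝ := E - w0 - w1 * y - w2 * z - G * (y * z)
/-- coefficient -/
def r10 : ℝ := E - w1 - G * (z + mu * (y * z))
/-- coefficient -/
def r01 : ℝ := t * E - w2 - G * (y + mv * (y * z))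
/-- coefficient -/
noncomputable def r20 : ℝ := E / (2:ℤ) - G * (mu * z + mu * mu * (y * z) / (2:ℤ))
/-- coefficient -/
def r11 : ℝ := t * E - G * (1 + mu * y + mv * z + mu * mv * (y * z))
/-- coefficient -/
noncomputable def r02 : ℝ := t * t * E / (2:ℤ) - G * (mv * y + mv * mv * (y * z) / (2:ℤ))

/-- error term; `ay`, `az` bound `|y|`, `|z|` -/
noncomputable def rer (ay az r s : ℝ) : ℝ :=
  (E + E) * ((r + t * s) * ((r + t * s) * (r + t * s))) / (9:ℤ) +
    G * ((az * r + ay * s) * ((mu * r + mv * s) * (mu * r + mv * s)) / (2:ℤ) +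
      r * s * ((mu * r + mv * s) + (mu * r + mv * s) * (mu * r + mv * s) / (2:ℤ)) +
      ((ay + r) + (ay + r)) * (az + s) *
        ((mu * r + mv * s) * ((mu * r + mv * s) * (mu * r + mv * s))) / (9:ℤ))

end real

theorem box_real {t w0 w1 w2 om mu mv la y z r s u v ay az : ℝ} (ht : 0 ≤ t) (hmu : 0 ≤ mu)
    (hmv : 0 ≤ mv) (hla : 0 ≤ la) (hom : 0 ≤ om) (hu : |u| ≤ r) (hv : |v| ≤ s)
    (hX : r + t * s ≤ 1) (hM : mu * r + mv * s ≤ 1) (hay : |y| ≤ ay) (haz : |z| ≤ az) :
    let E := la * Real.exp (y + t * z)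
    let G := om * Real.exp (mu * y + mv * z)
    r00 w0 w1 w2 E G y z + r10 w1 mu E G y z * u + r01 t w2 mv E G y z * v +
      r20 mu E G y z * u ^ 2 + r11 t mu mv E G y z * (u * v) + r02 t mv E G y z * v ^ 2 -
      rer t mu mv E G ay az r s ≤ FF t w0 w1 w2 om mu mv la (y + u) (z + v) := by
  intro E G
  have hE : 0 ≤ E := by positivity
  have hG : 0 ≤ G := by positivity
  have hr : 0 ≤ r := (abs_nonneg u).trans hu
  have hs : 0 ≤ s := (abs_nonneg v).trans hv
  have hay0 : 0 ≤ ay := (abs_nonneg y).trans hay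
  have haz0 : 0 ≤ az := (abs_nonneg z).trans haz
  -- first exponential
  set x := u + t * v with hx
  set X := r + t * s with hXd
  have hX0 : 0 ≤ X := by positivity
  have hxX : |x| ≤ X := by
    calc |x| ≤ |u| + |t * v| := abs_add_le _ _
      _ = |u| + t * |v| := by rw [abs_mul, abs_of_nonneg ht]
      _ ≤ X := by rw [hXd]; gcongr
  have h1 := exp_quad (hxX.trans hX)
  have h1' : 1 + x + x ^ 2 / 2 - 2 / 9 * X ^ 3 ≤ Real.exp x := by
    have h3 : |x| ^ 3 ≤ X ^ 3 := pow_le_pow_left₀ (abs_nonneg _) hxX 3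
    have := (abs_le.1 h1).1
    linarith
  -- second exponential
  set m := mu * u + mv * v with hm
  set M := mu * r + mv * s with hMd
  have hM0 : 0 ≤ M := by positivity
  have hmM : |m| ≤ M := by
    calc |m| ≤ |mu * u| + |mv * v| := abs_add_le _ _
      _ = mu * |u| + mv * |v| := by rw [abs_mul, abs_mul, abs_of_nonneg hmu, abs_of_nonneg hmv]
      _ ≤ M := by rw [hMd]; gcongr
  have h2 := exp_quad (hmM.trans hM)
  have h2' : |Real.exp m - (1 + m + m ^ 2 / 2)| ≤ 2 / 9 * M ^ 3 := by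
    have h3 : |m| ^ 3 ≤ M ^ 3 := pow_le_pow_left₀ (abs_nonneg _) hmM 3
    linarith
  set P := (y + u) * (z + v) with hP
  have hPa : |P| ≤ (ay + r) * (az + s) := by
    rw [hP, abs_mul]
    have a1 : |y + u| ≤ ay + r := (abs_add_le _ _).trans (by linarith)
    have a2 : |z + v| ≤ az + s := (abs_add_le _ _).trans (by linarith)
    exact mul_le_mul a1 a2 (abs_nonneg _) (by positivity)
  have h4 : P * Real.exp m ≤ P * (1 + m + m ^ 2 / 2) + (ay + r) * (az + s) * (2 / 9 * M ^ 3) := by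
    have h5 : P * (Real.exp m - (1 + m + m ^ 2 / 2)) ≤ (ay + r) * (az + s) * (2 / 9 * M ^ 3) := by
      calc P * (Real.exp m - (1 + m + m ^ 2 / 2)) ≤ |P * (Real.exp m - (1 + m + m ^ 2 / 2))| :=
            le_abs_self _
        _ = |P| * |Real.exp m - (1 + m + m ^ 2 / 2)| := abs_mul _ _
        _ ≤ (ay + r) * (az + s) * (2 / 9 * M ^ 3) :=
            mul_le_mul hPa h2' (abs_nonneg _) (by positivity)
    linarith
  -- the higher terms of the polynomial
  have hm2 : m ^ 2 ≤ M ^ 2 := by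
    rw [← sq_abs m]; exact pow_le_pow_left₀ (abs_nonneg _) hmM 2
  have h6 : u * v * m ≤ r * s * M := by
    calc u * v * m ≤ |u * v * m| := le_abs_self _
      _ = |u| * |v| * |m| := by rw [abs_mul, abs_mul]
      _ ≤ r * s * M := mul_le_mul (mul_le_mul hu hv (abs_nonneg _) hr) hmM (abs_nonneg _)
          (by positivity)
  have h7 : (z * u + y * v) * m ^ 2 ≤ (az * r + ay * s) * M ^ 2 := by
    have a1 : z * u + y * v ≤ az * r + ay * s := by
      have b1 : z * u ≤ az * r := by
        calc z * u ≤ |z * u| := le_abs_self _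
          _ = |z| * |u| := abs_mul _ _
          _ ≤ az * r := mul_le_mul haz hu (abs_nonneg _) haz0
      have b2 : y * v ≤ ay * s := by
        calc y * v ≤ |y * v| := le_abs_self _
          _ = |y| * |v| := abs_mul _ _
          _ ≤ ay * s := mul_le_mul hay hv (abs_nonneg _) hay0
      linarith
    calc (z * u + y * v) * m ^ 2 ≤ (az * r + ay * s) * m ^ 2 :=
          mul_le_mul_of_nonneg_right a1 (sq_nonneg _)
      _ ≤ (az * r + ay * s) * M ^ 2 := mul_le_mul_of_nonneg_left hm2 (by positivity)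
  have h8 : u * v * m ^ 2 ≤ r * s * M ^ 2 := by
    have a1 : u * v ≤ r * s := by
      calc u * v ≤ |u * v| := le_abs_self _
        _ = |u| * |v| := abs_mul _ _
        _ ≤ r * s := mul_le_mul hu hv (abs_nonneg _) hr
    calc u * v * m ^ 2 ≤ (r * s) * m ^ 2 := mul_le_mul_of_nonneg_right a1 (sq_nonneg _)
      _ ≤ r * s * M ^ 2 := mul_le_mul_of_nonneg_left hm2 (by positivity)
  have e1 : la * Real.exp (y + u + t * (z + v)) = E * Real.exp x := by
    show _ = la * Real.exp (y + t * z) * Real.exp x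
    rw [mul_assoc, ← Real.exp_add]; congr 2; rw [hx]; ring
  have e2 : om * ((y + u) * (z + v) * Real.exp (mu * (y + u) + mv * (z + v)))
      = G * (P * Real.exp m) := by
    show _ = om * Real.exp (mu * y + mv * z) * (P * Real.exp m)
    have : Real.exp (mu * (y + u) + mv * (z + v))
        = Real.exp (mu * y + mv * z) * Real.exp m := by
      rw [← Real.exp_add]; congr 1; rw [hm]; ring
    rw [this, hP]; ring
  unfold FF
  rw [e1, e2]
  have h9 := mul_le_mul_of_nonneg_left h1' hE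
  have h10 : G * (P * Real.exp m) ≤ G * (P * (1 + m + m ^ 2 / 2) +
      (ay + r) * (az + s) * (2 / 9 * M ^ 3)) := mul_le_mul_of_nonneg_left h4 hG
  have h11 : P * (1 + m + m ^ 2 / 2) = y * z + (z * u + y * v) + u * v + y * z * m +
      (z * u + y * v) * m + y * z * m ^ 2 / 2 + (u * v * m + (z * u + y * v) * m ^ 2 / 2 +
      u * v * m ^ 2 / 2) := by rw [hP]; ring
  have h12 : G * (u * v * m + (z * u + y * v) * m ^ 2 / 2 + u * v * m ^ 2 / 2) ≤
      G * (r * s * M + (az * r + ay * s) * M ^ 2 / 2 + r * s * M ^ 2 / 2) := by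
    apply mul_le_mul_of_nonneg_left _ hG
    linarith
  unfold r00 r10 r01 r20 r11 r02 rer
  rw [← hXd, ← hMd]
  push_cast
  rw [h11] at h10
  have h13 : E * (1 + x + x ^ 2 / 2 - 2 / 9 * X ^ 3) = E * (1 + (u + t * v) +
      (u ^ 2 + 2 * t * (u * v) + t * t * v ^ 2) / 2) - 2 / 9 * E * X ^ 3 := by rw [hx]; ring
  rw [h13] at h9
  have h14 : y * z + (z * u + y * v) + u * v + y * z * m + (z * u + y * v) * m + y * z * m ^ 2 / 2
      = y * z + (z * u + y * v) + u * v + y * z * (mu * u + mv * v) +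
        (z * mu * u ^ 2 + (z * mv + y * mu) * (u * v) + y * mv * v ^ 2) +
        y * z * (mu * mu * u ^ 2 + 2 * mu * mv * (u * v) + mv * mv * v ^ 2) / 2 := by
    rw [hm]; ring
  rw [h14] at h10
  nlinarith [h9, h10, h12]

end Pool.Agent.H56.RM
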