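import Pool.Agent.H56.RM.Cells0
import Pool.Agent.H48.RMJ.Base

/-!
Cells with kernel-checkable certificates.
-/

open Finset

namespace Pool.Agent.H56.RM

open Pool.Agent.H92 Pool.Agent.H98.RM Pool.Agent.H56.Ramsey Pool.Agent.H34.RM Pool.Agent.H18.RM.K

/-- witnesses of a cell -/
structure Wt where
  /-- lower bound of `log q` -/
  lq : ℤ
  /-- lower bound of `log p` -/
  lp : ℤ
  /-- upper bound of a logarithm -/
  rp : ℤ
  /-- upper bound of a logarithm -/
  rq : ℤ
  /-- exponent -/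
  XR : ℤ
  /-- exponent -/
  XB : ℤ
  /-- exponent -/
  XQ : ℤ
  /-- exponent -/
  XP : ℤ

/-- the data of the scalar checker -/
def toSK (z : Cell3) (x : Wt) : SCk :=
  ⟨z.a, z.b, z.c, z.q, z.p, z.L, z.M, x.lq, x.lp, x.rp, x.rq, x.XR, x.XB, x.XQ, x.XP⟩

/-- check of all cells of a list -/
def cellsChk : List Cell3 → List Wt → Bool
  | [], _ => true
  | _ :: _, [] => false
  | z :: t, x :: s =>
    chkK 400000 (-510825) 400000 (-510825) 1110000 1110000 1 1000000 (toSK z x) && cellsChk t s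

theorem cert3P_of_chk {r : SCk} (h : chkK 400000 (-510825) 400000 (-510825) 1110000 1110000 1
    1000000 r = true) :
    Cert3P (S6 r.a) (S6 r.b) (S6 r.c) (S6 r.q) (S6 r.p) (S6 r.L) (S6 r.M) := by
  have hbase : chkBase 400000 (-510825) 400000 (-510825) 1110000 1110000 1 = true := by
    decide +kernel
  obtain ⟨ha, hb, hc, hq0, hq1, hp0, hp1, hL, hM, key⟩ := scal_of_chk (la := 111 / 100)
    (la' := 111 / 100) (l1 := 1 / 1000000) hbase (by norm_num) (by norm_num) (by norm_num) r h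
  refine ⟨ha, hb, hc, hq0, hq1, hp0, hp1, hL, hM, ?_⟩
  have e1 : ((400000 : ℤ) : ℝ) / 1000000 = 2 / 5 := by norm_num
  rw [e1] at key
  obtain ⟨d, hd0, hd1, hd⟩ := Pool.Agent.H66.RM.ex_d (s := 2 / 5) (t := 2 / 5) (by norm_num)
    (by norm_num) (by norm_num) (by norm_num) hq0 hq1 hp0 hp1 key
  refine ⟨d, hd0, hd1, 6, Pool.Agent.H48.RMJ.cf0, 2 / 5, 2 / 5, 111 / 100, 111 / 100,
    1 / 1000000, 40, 5, by norm_num, Pool.Agent.H48.RMJ.cf0_nonneg, by norm_num, by norm_num,
    by norm_num, by norm_num, by norm_num, by norm_num, by norm_num, by norm_num,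
    Pool.Agent.H48.RMJ.cert_red (by norm_num), Pool.Agent.H48.RMJ.cert_blue (by norm_num),
    Pool.Agent.H48.RMJ.growth, ?_⟩
  rw [Pool.Agent.H48.RMJ.cf0_zero]
  calc _ < _ := hd
    _ = 1 := by norm_num

theorem cellsOK (hT : T3P Cert3P) : ∀ {cs : List Cell3} {ws : List Wt},
    cellsChk cs ws = true → ∀ z ∈ cs, CellOK z := by
  intro cs
  induction cs with
  | nil => intro ws _ z hz; cases hz
  | cons y t ih =>
    intro ws h z hz
    cases ws with
    | nil => exact absurd h (by simp [cellsChk])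
    | cons x s =>
      simp only [cellsChk, Bool.and_eq_true] at h
      rcases List.mem_cons.1 hz with rfl | hz
      · exact hT _ _ _ _ _ _ _ (cert3P_of_chk h.1)
      · exact ih h.2 z hz

end Pool.Agent.H56.RM
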