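import Pool.Agent.H56.RM.Diag3
import Pool.Agent.H18.RM.SK

/-!
Lists of lines.
-/

open Finset

namespace Pool.Agent.H56.RM

open Pool.Agent.H92 Pool.Agent.H98.RM

/-- all lines of a list -/
def AllL (C : List (ℤ × ℤ)) : List (ℤ × ℤ) → Prop
  | [] => True
  | d :: t => LineP C d.1 d.2 ∧ AllL C t

theorem allL_get {C : List (ℤ × ℤ)} : ∀ {D : List (ℤ × ℤ)}, AllL C D →
    ∀ j : Fin D.length, LineP C D[j].1 D[j].2 := by
  intro D
  induction D with
  | nil => intro _ j; exact absurd j.2 (by simp)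
  | cons d t ih =>
    intro h j
    rcases j with ⟨j, hj⟩
    cases j with
    | zero => exact h.1
    | succ j => exact ih h.2 ⟨j, by simpa using hj⟩

end Pool.Agent.H56.RM
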