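import Pool.Agent.H56.RM.Cells0

/-!
Cells with kernel-checkable certificates, with several shapes of the polynomial kernel.
-/

open Finset

namespace Pool.Agent.H56.RM

open Pool.Agent.H92 Pool.Agent.H98.RM Pool.Agent.H56.Ramsey Pool.Agent.H34.RM Pool.Agent.H18.RM.K

/-- a shape of the kernel, scale `10^6` -/
structure Shp where
  /-- tilt -/
  S : ℤ
  /-- upper bound of `log (1 - s)` -/
  LS : ℤ
  /-- tilt -/
  T : ℤ
  /-- upper bound of `log (1 - t)` -/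
  LT : ℤ
  /-- constant of the red inequality -/
  LA : ℤ
  /-- constant of the blue inequality -/
  LB : ℤ
  /-- constant of the tails -/
  L1 : ℤ

/-- certificate of a shape -/
def ShpOK (x : Shp) : Prop :=
  chkBase x.S x.LS x.T x.LT x.LA x.LB x.L1 = true ∧
  ∃ (n : ℕ) (cf : ℕ → ℕ → ℝ) (C : ℝ) (m : ℕ), 1 ≤ n ∧ (∀ i j, 0 ≤ cf i j) ∧ cf 0 0 = 1 ∧ 0 ≤ C ∧
    (∀ y z : ℝ, pol n cf y z ≤ (x.LA : ℝ) / 1000000 * Real.exp (y + (x.T : ℝ) / 1000000 * z) +
      (x.L1 : ℝ) / 1000000 * (Real.exp y + Real.exp z)) ∧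
    (∀ y z : ℝ, pol n cf y z ≤ (x.LB : ℝ) / 1000000 * Real.exp (z + (x.S : ℝ) / 1000000 * y) +
      (x.L1 : ℝ) / 1000000 * (Real.exp y + Real.exp z)) ∧
    (∀ y z : ℝ, pol n cf y z ≤ C * (1 + (max y 0) ^ m + (max z 0) ^ m))

/-- scalar test of a cell with a shape -/
def shChk (x : Shp) (r : SCk) : Bool :=
  chkK x.S x.LS x.T x.LT x.LA x.LB x.L1 1000000 r

theorem cert3P_of_shChk {x : Shp} (hx : ShpOK x) {r : SCk} (h : shChk x r = true) :
    Cert3P (S6 r.a) (S6 r.b) (S6 r.c) (S6 r.q) (S6 r.p) (S6 r.L) (S6 r.M) := by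
  unfold shChk at h
  obtain ⟨hbase, hx⟩ := hx
  obtain ⟨ha, hb, hc, hq0, hq1, hp0, hp1, hL, hM, key⟩ := scal_of_chk
    (la := (x.LA : ℝ) / 1000000) (la' := (x.LB : ℝ) / 1000000) (l1 := (x.L1 : ℝ) / 1000000)
    hbase le_rfl le_rfl le_rfl r h
  simp only [chkBase, Bool.and_eq_true, decide_eq_true_eq] at hbase
  obtain ⟨⟨⟨⟨⟨⟨⟨⟨⟨⟨hS0, hS1⟩, hT0⟩, hT1⟩, -⟩, -⟩, -⟩, -⟩, hLA⟩, hLB⟩, hL1⟩ := hbase
  have hS0' : (0 : ℝ) ≤ x.S := by exact_mod_cast hS0
  have hS1' : (x.S : ℝ) < 1000000 := by exact_mod_cast hS1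
  have hT0' : (0 : ℝ) ≤ x.T := by exact_mod_cast hT0
  have hT1' : (x.T : ℝ) < 1000000 := by exact_mod_cast hT1
  have hLA' : (0 : ℝ) ≤ x.LA := by exact_mod_cast hLA
  have hLB' : (0 : ℝ) ≤ x.LB := by exact_mod_cast hLB
  have hL1' : (0 : ℝ) ≤ x.L1 := by exact_mod_cast hL1
  have s0 : (0 : ℝ) ≤ (x.S : ℝ) / 1000000 := by positivity
  have s1 : (x.S : ℝ) / 1000000 < 1 := by rw [div_lt_one (by norm_num)]; exact hS1'
  have t0 : (0 : ℝ) ≤ (x.T : ℝ) / 1000000 := by positivity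
  have t1 : (x.T : ℝ) / 1000000 < 1 := by rw [div_lt_one (by norm_num)]; exact hT1'
  refine ⟨ha, hb, hc, hq0, hq1, hp0, hp1, hL, hM, ?_⟩
  obtain ⟨d, hd0, hd1, hd⟩ := Pool.Agent.H66.RM.ex_d (s := (x.S : ℝ) / 1000000)
    (t := (x.T : ℝ) / 1000000) s0 s1 t0 t1 hq0 hq1 hp0 hp1 key
  obtain ⟨n, cf, C, m, hn, hcf, hcf0, hC, hr, hbl, hg⟩ := hx
  refine ⟨d, hd0, hd1, n, cf, (x.S : ℝ) / 1000000, (x.T : ℝ) / 1000000, (x.LA : ℝ) / 1000000,
    (x.LB : ℝ) / 1000000, (x.L1 : ℝ) / 1000000, C, m, hn, hcf, s0, s1.le, t0, t1.le,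
    by positivity, by positivity, by positivity, hC, hr, hbl, hg, ?_⟩
  rw [hcf0]
  calc _ < _ := hd
    _ = 1 := by norm_num

/-- witnesses of a cell and the index of its shape -/
structure Wk where
  /-- index of the shape -/
  k : ℕ
  /-- lower bound of `log q` -/
  lq : ℤ
  /-- lower bound of `log p` -/
  lp : ℤ
  /-- upper bound of a logarithm -/
  rp : ℤ
  /-- upper bound of a logarithm -/
  rq : ℤ
  /-- exponent -/
  XR : ℤ
  /-- exponent -/
  XB : ℤ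
  /-- exponent -/
  XQ : ℤ
  /-- exponent -/
  XP : ℤ

/-- the data of the scalar checker -/
def toSK2 (z : Cell3) (x : Wk) : SCk :=
  ⟨z.a, z.b, z.c, z.q, z.p, z.L, z.M, x.lq, x.lp, x.rp, x.rq, x.XR, x.XB, x.XQ, x.XP⟩

/-- scalar test of a cell -/
def cellChk2 (Sh : List Shp) (z : Cell3) (x : Wk) : Bool :=
  match Sh[x.k]? with
  | some s => shChk s (toSK2 z x)
  | none => false

/-- check of all cells of a list -/
def cellsChk2 (Sh : List Shp) : List Cell3 → List Wk → Bool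
  | [], _ => true
  | _ :: _, [] => false
  | z :: t, x :: s => cellChk2 Sh z x && cellsChk2 Sh t s

theorem cellsOK2 (hT : T3P Cert3P) {Sh : List Shp} (hS : ∀ x ∈ Sh, ShpOK x) :
    ∀ {cs : List Cell3} {ws : List Wk}, cellsChk2 Sh cs ws = true → ∀ z ∈ cs, CellOK z := by
  intro cs
  induction cs with
  | nil => intro ws _ z hz; cases hz
  | cons y t ih =>
    intro ws h z hz
    cases ws with
    | nil => exact absurd h (by simp [cellsChk2])
    | cons x s =>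
      simp only [cellsChk2, Bool.and_eq_true] at h
      rcases List.mem_cons.1 hz with rfl | hz
      · have h1 := h.1
        unfold cellChk2 at h1
        split at h1
        · rename_i s' hs'
          exact hT _ _ _ _ _ _ _ (cert3P_of_shChk (hS _ (List.mem_of_getElem? hs')) h1)
        · exact absurd h1 (by simp)
      · exact ih h.2 z hz

end Pool.Agent.H56.RM
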