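import Pool.Agent.H56.RM.Family3

/-!
Convex combinations of good lines and the checker of the diagonal step.
-/

open Finset

namespace Pool.Agent.H56.RM

open Pool.Agent.H92 Pool.Agent.H98.RM Pool.Agent.H56.Ramsey

theorem good_mono {u v u' v' : ℝ} (h : Good u v) (hu : u ≤ u') (hv : v ≤ v') : Good u' v' := by
  intro ε hε
  obtain ⟨C, hC, h⟩ := h ε hε
  refine ⟨C, hC, fun V _ G X k l hR hB => (h V G X k l hR hB).trans ?_⟩
  have h1 : (k : ℝ) * u ≤ k * u' := mul_le_mul_of_nonneg_left hu (Nat.cast_nonneg _)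
  have h2 : (l : ℝ) * v ≤ l * v' := mul_le_mul_of_nonneg_left hv (Nat.cast_nonneg _)
  have h3 : Real.exp (ε * (k + l) + k * u + l * v) ≤ Real.exp (ε * (k + l) + k * u' + l * v') :=
    Real.exp_le_exp.2 (by linarith)
  exact mul_le_mul_of_nonneg_left h3 hC.le

theorem good_comb {ι : Type} [Fintype ι] {u v w : ι → ℝ} (hG : ∀ i, Good (u i) (v i))
    (hw : ∀ i, 0 ≤ w i) (hw1 : ∑ i, w i = 1) : Good (∑ i, w i * u i) (∑ i, w i * v i) := by
  intro ε hε
  choose C hC h using fun i => hG i ε hε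
  refine ⟨Real.exp (∑ i, w i * Real.log (C i)), Real.exp_pos _, fun V _ G X k l hR hB => ?_⟩
  rcases Nat.eq_zero_or_pos X.card with h0 | h0
  · rw [h0]; push_cast; positivity
  have hX : (0 : ℝ) < X.card := by exact_mod_cast h0
  have h1 : ∀ i, Real.log X.card ≤ Real.log (C i) + (ε * (k + l) + k * u i + l * v i) := by
    intro i
    have h2 := Real.log_le_log hX (h i V G X k l hR hB)
    rwa [Real.log_mul (hC i).ne' (Real.exp_pos _).ne', Real.log_exp] at h2
  have h2 : Real.log X.card ≤ ∑ i, w i * (Real.log (C i) + (ε * (k + l) + k * u i + l * v i)) := by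
    calc Real.log X.card = ∑ i, w i * Real.log X.card := by rw [← Finset.sum_mul, hw1, one_mul]
      _ ≤ _ := Finset.sum_le_sum fun i _ => mul_le_mul_of_nonneg_left (h1 i) (hw i)
  have h3 : ∑ i, w i * (Real.log (C i) + (ε * (k + l) + k * u i + l * v i)) =
      ∑ i, w i * Real.log (C i) + (ε * (k + l) + k * ∑ i, w i * u i + l * ∑ i, w i * v i) := by
    have : ∀ i, w i * (Real.log (C i) + (ε * (k + l) + k * u i + l * v i)) =
        w i * Real.log (C i) + (w i * (ε * (k + l)) + k * (w i * u i) + l * (w i * v i)) :=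
      fun i => by ring
    rw [Finset.sum_congr rfl (fun i _ => this i), Finset.sum_add_distrib, Finset.sum_add_distrib,
      Finset.sum_add_distrib, ← Finset.sum_mul, hw1, one_mul, ← Finset.mul_sum, ← Finset.mul_sum]
  rw [h3] at h2
  rw [← Real.exp_add]
  exact (Real.log_le_iff_le_exp hX).1 h2

/-- numerical part of the check of a diagonal cell -/
def dcellChk (C : List (ℤ × ℤ)) (c0 : ℤ) (z : Cell3) : Bool :=
  decide (0 < z.a) && decide (0 < z.b) && decide (0 < z.c) && decide (0 ≤ z.L) &&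
  decide (0 ≤ z.M) && wok C z.wu && wok C z.wv &&
  decide (sw z.wu = 1000000) && decide (sw z.wv = 1000000) &&
  decide (z.b * su C z.wu ≤ z.L * 1000000000000) &&
  decide (z.c * sv C z.wv ≤ z.M * 1000000000000) &&
  decide ((z.L + z.M) * 1000000000000 + z.b * sv C z.wu + z.c * su C z.wv
    ≤ (z.a + z.b + z.c) * c0 * 1000000)

theorem dcell_of {C : List (ℤ × ℤ)} (hG : ∀ i : Fin C.length × Bool, Good (ru3 C i) (rv3 C i))
    {c0 : ℤ} {z : Cell3} (h : dcellChk C c0 z = true) (hz : CellOK z) :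
    DCell3 (S6 c0) (S6 z.q) (S6 z.p) := by
  unfold dcellChk at h
  simp only [Bool.and_eq_true, decide_eq_true_eq] at h
  obtain ⟨⟨⟨⟨⟨⟨⟨⟨⟨⟨⟨ha, hb⟩, hc⟩, hL⟩, hM⟩, h1⟩, h2⟩, e1⟩, e2⟩, i1⟩, i2⟩, i3⟩ := h
  have j1 : (z.b : ℝ) * su C z.wu ≤ z.L * 1000000000000 := by exact_mod_cast i1
  have j2 : (z.c : ℝ) * sv C z.wv ≤ z.M * 1000000000000 := by exact_mod_cast i2
  have j3 : ((z.L : ℝ) + z.M) * 1000000000000 + z.b * sv C z.wu + z.c * su C z.wv
    ≤ (z.a + z.b + z.c) * c0 * 1000000 := by exact_mod_cast i3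
  have one : S6 1000000 = 1 := by unfold S6; norm_num
  have w1 : ∑ i, wf C z.wu i = 1 := by rw [sum_wf_one h1, e1, one]
  have w2 : ∑ i, wf C z.wv i = 1 := by rw [sum_wf_one h2, e2, one]
  have g1 := good_comb hG (wf_nonneg h1) w1
  have g2 := good_comb hG (wf_nonneg h2) w2
  rw [sum_wf_u h1, sum_wf_v h1] at g1
  rw [sum_wf_u h2, sum_wf_v h2] at g2
  have hb' := S6_pos hb
  have hc' := S6_pos hc
  refine ⟨S6 z.a, S6 z.b, S6 z.c, S6 z.L, S6 z.M, (su C z.wv : ℝ) / 1000000000000,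
    (sv C z.wu : ℝ) / 1000000000000, S6_pos ha, hb', hc', S6_nonneg hL, S6_nonneg hM, hz,
    good_mono g1 ?_ le_rfl, good_mono g2 le_rfl ?_, ?_⟩
  · rw [le_div_iff₀ hb']; unfold S6; linarith
  · rw [le_div_iff₀ hc']; unfold S6; linarith
  · unfold S6; linarith

/-- check of the two set step at the end of the diagonal window -/
def dtwoChk (C : List (ℤ × ℤ)) (c0 q : ℤ) (x : T2) : Bool :=
  decide (0 < x.a) && decide (x.a ≤ 1000000) && decide (0 < q) && decide (q < 1000000) &&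
  decide (0 ≤ x.L) && decide (0 ≤ x.M) && wok C x.w &&
  decide (sw x.w = 1000000) && decide (su C x.w ≤ x.L * 1000000) &&
  decide ((x.L + x.M) * 1000000 + sv C x.w ≤ (1000000 + x.a) * c0) &&
  certChk (x.a * 1000000000000) (q * 1000000000000) (x.L * 1000000000000)
    (x.M * 1000000000000) x.c.t x.c.x1 x.c.x2 x.c.x3 x.c.s1 x.c.s2

theorem dtwo_of {C : List (ℤ × ℤ)} (hG : ∀ i : Fin C.length × Bool, Good (ru3 C i) (rv3 C i))
    {c0 q : ℤ} {x : T2} (h : dtwoChk C c0 q x = true) : DCell2 CertI (S6 c0) (S6 q) := by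
  unfold dtwoChk at h
  simp only [Bool.and_eq_true, decide_eq_true_eq] at h
  obtain ⟨⟨⟨⟨⟨⟨⟨⟨⟨⟨ha, ha1⟩, hq⟩, hq1⟩, hL⟩, hM⟩, h1⟩, e1⟩, i1⟩, i2⟩, hc⟩ := h
  have hC := certChk_sound hc
  rw [R_S6, R_S6, R_S6, R_S6] at hC
  have j1 : (su C x.w : ℝ) ≤ x.L * 1000000 := by exact_mod_cast i1
  have j2 : ((x.L : ℝ) + x.M) * 1000000 + sv C x.w ≤ (1000000 + x.a) * c0 := by exact_mod_cast i2
  have one : S6 1000000 = 1 := by unfold S6; norm_num
  have w1 : ∑ i, wf C x.w i = 1 := by rw [sum_wf_one h1, e1, one]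
  have g1 := good_comb hG (wf_nonneg h1) w1
  rw [sum_wf_u h1, sum_wf_v h1] at g1
  refine ⟨S6 x.a, S6 x.L, S6 x.M, (sv C x.w : ℝ) / 1000000000000, S6_pos ha, ?_, S6_pos hq, ?_,
    S6_nonneg hL, S6_nonneg hM, hC, good_mono g1 ?_ le_rfl, ?_⟩
  · rw [← one]; exact S6_le ha1
  · rw [← one]; exact S6_lt hq1
  · unfold S6; linarith
  · unfold S6; linarith

/-- The diagonal bound given by checked data. -/
theorem goodDiag3 (hT : T1P CertI) (hD : DiagStep3 CertI) {C : List (ℤ × ℤ)}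
    (h : ∀ j : Fin C.length, LineP C C[j].1 C[j].2) {c0 qr : ℤ} {x : T2} {cs : List Cell3}
    (h1 : dtwoChk C c0 qr x = true) (h2 : chainChk cs 500000 qr = true)
    (h3 : ∀ z ∈ cs, dcellChk C c0 z = true) (h4 : ∀ z ∈ cs, CellOK z) : GoodDiag (S6 c0) := by
  have hG := good_of_lines hT h
  refine hD (S6 c0) (S6 qr) (cs.map fun z => (S6 z.q, S6 z.p)) (dtwo_of hG h1) ?_ ?_
  · intro z hz
    rw [List.mem_map] at hz
    obtain ⟨z', hz', rfl⟩ := hz
    exact dcell_of hG (h3 z' hz') (h4 z' hz')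
  · have := covers_of_chain _ _ _ (chain_of _ _ _ h2)
    have e : S6 500000 = 1 / 2 := by unfold S6; norm_num
    rwa [e] at this

end Pool.Agent.H56.RM
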