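import Pool.Agent.H98.RM.Boot
import Pool.Agent.H56.Ramsey.Family

/-!
Kernel-checkable families of lines for the bootstrap theorem with three set steps.
All data are integers of scale `10^6`.
-/

open Finset

namespace Pool.Agent.H56.RM

open Pool.Agent.H92 Pool.Agent.H98.RM Pool.Agent.H56.Ramsey

/-- the real number `n / 10^6` -/
noncomputable def S6 (n : ℤ) : ℝ := (n : ℝ) / 1000000

/-- a weight on a line -/
structure W3 where
  /-- index of the line -/
  j : ℕ
  /-- mirrored -/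
  m : Bool
  /-- weight -/
  w : ℤ

/-- a cell -/
structure Cell3 where
  /-- lower end of the red degrees -/
  q : ℤ
  /-- `1 - p` is the upper end -/
  p : ℤ
  /-- exponent -/
  a : ℤ
  /-- exponent -/
  b : ℤ
  /-- exponent -/
  c : ℤ
  /-- red cost -/
  L : ℤ
  /-- blue cost -/
  M : ℤ
  /-- weights for the red book -/
  wu : List W3
  /-- weights for the blue book -/
  wv : List W3
  /-- cone multipliers -/
  s : List W3

/-- a two set step -/
structure T2 where
  /-- exponent -/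
  a : ℤ
  /-- red cost -/
  L : ℤ
  /-- blue cost -/
  M : ℤ
  /-- weights -/
  w : List W3
  /-- cone multipliers -/
  s : List W3
  /-- certificate -/
  c : CD

/-- a line -/
structure Ln3 where
  /-- first coordinate -/
  u : ℤ
  /-- second coordinate -/
  v : ℤ
  /-- line of Erdos-Szekeres type -/
  es : Bool
  /-- upper bound of the red degrees -/
  qr : ℤ
  /-- upper bound of the blue degrees -/
  qb : ℤ
  /-- cells -/
  cs : List Cell3
  /-- two set step for the red degrees above `qr` -/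
  tr : Option T2
  /-- two set step for the blue degrees above `qb` (weights mirrored) -/
  tb : Option T2

/-- coordinate of line `j` -/
def cu (C : List (ℤ × ℤ)) (j : ℕ) (b : Bool) : ℤ :=
  match C[j]? with
  | some d => bif b then d.2 else d.1
  | none => 0

/-- coordinate of line `j` -/
def cv (C : List (ℤ × ℤ)) (j : ℕ) (b : Bool) : ℤ := cu C j (!b)

/-- weighted sum -/
def su (C : List (ℤ × ℤ)) (ws : List W3) : ℤ := (ws.map fun x => x.w * cu C x.j x.m).sum

/-- weighted sum -/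
def sv (C : List (ℤ × ℤ)) (ws : List W3) : ℤ := (ws.map fun x => x.w * cv C x.j x.m).sum

/-- sum of the weights -/
def sw (ws : List W3) : ℤ := (ws.map fun x => x.w).sum

/-- range check of a list of weights -/
def wok (C : List (ℤ × ℤ)) (ws : List W3) : Bool :=
  ws.all fun x => decide (x.j < C.length) && decide (0 ≤ x.w)

/-- numerical part of the step condition for the cell `z` of the line `(u0, v0)` -/
def stepChk (C : List (ℤ × ℤ)) (u0 v0 : ℤ) (z : Cell3) : Bool :=
  decide (0 < z.a) && decide (0 < z.b) && decide (0 < z.c) && decide (0 ≤ z.L) &&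
  decide (0 ≤ z.M) && wok C z.wu && wok C z.wv && wok C z.s &&
  decide (sw z.wu = 1000000) && decide (sw z.wv = 1000000) &&
  decide (z.b * su C z.wu ≤ z.L * 1000000000000) &&
  decide (z.c * sv C z.wv ≤ z.M * 1000000000000) &&
  decide (z.L * 1000000000000 + z.c * su C z.wv + su C z.s * 1000000
    ≤ (z.a + z.b + z.c + sw z.s) * u0 * 1000000) &&
  decide (z.M * 1000000000000 + z.b * sv C z.wu + sv C z.s * 1000000
    ≤ (z.a + z.b + z.c + sw z.s) * v0 * 1000000)

/-- check of a two set step -/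
def twoChk (C : List (ℤ × ℤ)) (u0 v0 q : ℤ) (x : T2) : Bool :=
  decide (0 < x.a) && decide (x.a ≤ 1000000) && decide (0 < q) && decide (q < 1000000) &&
  decide (0 ≤ x.L) && decide (0 ≤ x.M) && wok C x.w && wok C x.s &&
  decide (sw x.w = 1000000) && decide (su C x.w ≤ x.L * 1000000) &&
  decide (x.L * 1000000 + su C x.s ≤ (1000000 + x.a + sw x.s) * u0) &&
  decide (x.M * 1000000 + sv C x.w + sv C x.s ≤ (1000000 + x.a + sw x.s) * v0) &&
  certChk (x.a * 1000000000000) (q * 1000000000000) (x.L * 1000000000000)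
    (x.M * 1000000000000) x.c.t x.c.x1 x.c.x2 x.c.x3 x.c.s1 x.c.s2

/-- either the degree bound or a two set step -/
def sideChk (C : List (ℤ × ℤ)) (u0 v0 q : ℤ) : Option T2 → Bool
  | none => decide ((Iv.exp (Iv.pt (-u0 * 1000000000000))).hi ≤ q * 1000000000000)
  | some x => twoChk C u0 v0 q x

/-- chain condition -/
def chainChk : List Cell3 → ℤ → ℤ → Bool
  | [], lo, hi => decide (hi < lo)
  | z :: t, lo, hi => decide (z.q < lo) && chainChk t (1000000 - z.p) hi

/-- numerical part of the check of a line -/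
def lineChk3 (C : List (ℤ × ℤ)) (d : Ln3) : Bool :=
  decide (0 ≤ d.u) && decide (0 ≤ d.v) &&
  Iv.ok (Iv.pt (-d.u * 1000000000000)) && Iv.ok (Iv.pt (-d.v * 1000000000000)) &&
  (bif d.es then
    decide ((Iv.exp (Iv.pt (-d.u * 1000000000000))).hi +
      (Iv.exp (Iv.pt (-d.v * 1000000000000))).hi ≤ SC)
  else
    sideChk C d.u d.v d.qr d.tr && sideChk C d.v d.u d.qb d.tb &&
    chainChk d.cs (1000000 - d.qb) d.qr && d.cs.all (stepChk C d.u d.v))

/-- the three set theorem holds with the data of the cell -/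
def CellOK (z : Cell3) : Prop :=
  Conc3 (S6 z.a) (S6 z.b) (S6 z.c) (S6 z.q) (S6 z.p) (S6 z.L) (S6 z.M)

section reals

variable {C : List (ℤ × ℤ)}

/-- real weights -/
noncomputable def wf (C : List (ℤ × ℤ)) (ws : List W3) (i : Fin C.length × Bool) : ℝ :=
  (ws.map fun x => if x.j = (i.1 : ℕ) ∧ x.m = i.2 then S6 x.w else 0).sum

/-- real coordinates -/
noncomputable def ru3 (C : List (ℤ × ℤ)) (i : Fin C.length × Bool) : ℝ := S6 (cu C i.1 i.2)

/-- real coordinates -/
noncomputable def rv3 (C : List (ℤ × ℤ)) (i : Fin C.length × Bool) : ℝ := S6 (cv C i.1 i.2)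

theorem S6_nonneg {n : ℤ} (h : 0 ≤ n) : 0 ≤ S6 n := by
  have : (0 : ℝ) ≤ n := by exact_mod_cast h
  unfold S6; positivity

theorem S6_pos {n : ℤ} (h : 0 < n) : 0 < S6 n := by
  have : (0 : ℝ) < n := by exact_mod_cast h
  unfold S6; positivity

theorem S6_lt {n m : ℤ} (h : n < m) : S6 n < S6 m := by
  have : (n : ℝ) < m := by exact_mod_cast h
  unfold S6; linarith

theorem S6_le {n m : ℤ} (h : n ≤ m) : S6 n ≤ S6 m := by
  have : (n : ℝ) ≤ m := by exact_mod_cast h
  unfold S6; linarith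

theorem S6_one_sub (n : ℤ) : S6 (1000000 - n) = 1 - S6 n := by unfold S6; push_cast; ring

theorem wf_nonneg {ws : List W3} (h : wok C ws = true) (i : Fin C.length × Bool) :
    0 ≤ wf C ws i := by
  unfold wok at h
  rw [List.all_eq_true] at h
  unfold wf
  apply List.sum_nonneg
  intro r hr
  rw [List.mem_map] at hr
  obtain ⟨x, hx, rfl⟩ := hr
  have := h x hx
  simp only [Bool.and_eq_true, decide_eq_true_eq] at this
  split_ifs
  · exact S6_nonneg this.2
  · exact le_rfl

theorem sum_wf {ws : List W3} (h : wok C ws = true) (g : ℕ → Bool → ℝ) :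
    ∑ i : Fin C.length × Bool, wf C ws i * g i.1 i.2 = (ws.map fun x => S6 x.w * g x.j x.m).sum := by
  induction ws with
  | nil => simp [wf]
  | cons x t ih =>
    unfold wok at h
    rw [List.all_cons, Bool.and_eq_true] at h
    have ih' := ih h.2
    have hx := h.1
    simp only [Bool.and_eq_true, decide_eq_true_eq] at hx
    have e1 : ∀ i : Fin C.length × Bool, wf C (x :: t) i * g i.1 i.2 =
        (if x.j = (i.1 : ℕ) ∧ x.m = i.2 then S6 x.w else 0) * g i.1 i.2 + wf C t i * g i.1 i.2 := by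
      intro i
      unfold wf
      rw [List.map_cons, List.sum_cons]; ring
    rw [Finset.sum_congr rfl (fun i _ => e1 i), Finset.sum_add_distrib, ih', List.map_cons,
      List.sum_cons]
    congr 1
    rw [Finset.sum_eq_single ((⟨x.j, hx.1⟩ : Fin C.length), x.m)]
    · simp
    · rintro ⟨i1, i2⟩ _ hi
      rw [if_neg, zero_mul]
      rintro ⟨h1, h2⟩
      apply hi
      simp only at h1 h2
      rw [Prod.mk.injEq]
      exact ⟨Fin.ext h1.symm, h2.symm⟩
    · simp

theorem sum_wf_one {ws : List W3} (h : wok C ws = true) :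
    ∑ i : Fin C.length × Bool, wf C ws i = S6 (sw ws) := by
  have h1 := sum_wf h (fun _ _ => 1)
  simp only [mul_one] at h1
  rw [h1]
  unfold sw
  clear h h1
  induction ws with
  | nil => simp [S6]
  | cons x t ih => rw [List.map_cons, List.sum_cons, ih, List.map_cons, List.sum_cons]; unfold S6
                   push_cast; ring

theorem sum_wf_u {ws : List W3} (h : wok C ws = true) :
    ∑ i : Fin C.length × Bool, wf C ws i * ru3 C i = (su C ws : ℝ) / 1000000000000 := by
  have h1 := sum_wf h (fun j m => S6 (cu C j m))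
  unfold ru3
  rw [h1]
  unfold su
  clear h h1
  induction ws with
  | nil => simp
  | cons x t ih => rw [List.map_cons, List.sum_cons, ih, List.map_cons, List.sum_cons]; unfold S6
                   push_cast; ring

theorem sum_wf_v {ws : List W3} (h : wok C ws = true) :
    ∑ i : Fin C.length × Bool, wf C ws i * rv3 C i = (sv C ws : ℝ) / 1000000000000 := by
  have h1 := sum_wf h (fun j m => S6 (cv C j m))
  unfold rv3
  rw [h1]
  unfold sv
  clear h h1
  induction ws with
  | nil => simp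
  | cons x t ih => rw [List.map_cons, List.sum_cons, ih, List.map_cons, List.sum_cons]; unfold S6
                   push_cast; ring

theorem step3_of {u0 v0 : ℤ} {z : Cell3} (h : stepChk C u0 v0 z = true) (hz : CellOK z) :
    Step3 (ru3 C) (rv3 C) (S6 u0) (S6 v0) (S6 z.q) (S6 z.p) := by
  unfold stepChk at h
  simp only [Bool.and_eq_true, decide_eq_true_eq] at h
  obtain ⟨⟨⟨⟨⟨⟨⟨⟨⟨⟨⟨⟨⟨ha, hb⟩, hc⟩, hL⟩, hM⟩, h1⟩, h2⟩, h3⟩, e1⟩, e2⟩, i1⟩, i2⟩, i3⟩, i4⟩ := h
  have j1 : (z.b : ℝ) * su C z.wu ≤ z.L * 1000000000000 := by exact_mod_cast i1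
  have j2 : (z.c : ℝ) * sv C z.wv ≤ z.M * 1000000000000 := by exact_mod_cast i2
  have j3 : (z.L : ℝ) * 1000000000000 + z.c * su C z.wv + su C z.s * 1000000
    ≤ (z.a + z.b + z.c + sw z.s) * u0 * 1000000 := by exact_mod_cast i3
  have j4 : (z.M : ℝ) * 1000000000000 + z.b * sv C z.wu + sv C z.s * 1000000
    ≤ (z.a + z.b + z.c + sw z.s) * v0 * 1000000 := by exact_mod_cast i4
  refine ⟨S6 z.a, S6 z.b, S6 z.c, S6 z.L, S6 z.M, (su C z.wv : ℝ) / 1000000000000,
    (sv C z.wu : ℝ) / 1000000000000, wf C z.wu, wf C z.wv, wf C z.s, S6_pos ha, S6_pos hb,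
    S6_pos hc, S6_nonneg hL, S6_nonneg hM, hz, wf_nonneg h1, ?_, ?_, ?_, wf_nonneg h2, ?_, ?_, ?_,
    wf_nonneg h3, ?_, ?_⟩
  · rw [sum_wf_one h1, e1]; unfold S6; norm_num
  · rw [sum_wf_u h1]; unfold S6; linarith
  · rw [sum_wf_v h1]
  · rw [sum_wf_one h2, e2]; unfold S6; norm_num
  · rw [sum_wf_v h2]; unfold S6; linarith
  · rw [sum_wf_u h2]
  · rw [sum_wf_u h3, sum_wf_one h3]; unfold S6; linarith
  · rw [sum_wf_v h3, sum_wf_one h3]; unfold S6; linarith

theorem chain_of : ∀ (cs : List Cell3) (lo hi : ℤ), chainChk cs lo hi = true →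
    Chain (cs.map fun z => (S6 z.q, S6 z.p)) (S6 lo) (S6 hi) := by
  intro cs
  induction cs with
  | nil =>
    intro lo hi h
    unfold chainChk at h
    rw [decide_eq_true_eq] at h
    exact S6_lt h
  | cons z t ih =>
    intro lo hi h
    unfold chainChk at h
    rw [Bool.and_eq_true, decide_eq_true_eq] at h
    refine ⟨S6_lt h.1, ?_⟩
    have := ih _ _ h.2
    rwa [S6_one_sub] at this

/-- the mirror involution -/
def flip3 (n : ℕ) : Fin n × Bool ≃ Fin n × Bool where
  toFun i := (i.1, !i.2)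
  invFun i := (i.1, !i.2)
  left_inv i := by simp
  right_inv i := by simp

theorem rv3_flip (i : Fin C.length × Bool) : rv3 C i = ru3 C (flip3 _ i) := rfl

theorem ru3_flip (i : Fin C.length × Bool) : ru3 C i = rv3 C (flip3 _ i) := by
  unfold rv3 ru3 flip3 cv; simp

theorem step3_mirror {ι : Type} [Fintype ι] (e : ι ≃ ι) {u v : ι → ℝ} (hv : ∀ m, v m = u (e m))
    (hu : ∀ m, u m = v (e m)) {u0 v0 q p : ℝ} (h : Step3 u v u0 v0 q p) :
    Step3 u v v0 u0 p q := by
  obtain ⟨a, b, c, L, M, u', v', w, w', s, ha, hb, hc, hL, hM, hC, hw, hw1, hwu, hwv, hw', hw1',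
    hwu', hwv', hs, h1, h2⟩ := h
  have k1 : ∀ f : ι → ℝ, ∑ m, f (e m) * u m = ∑ m, f m * v m := by
    intro f
    rw [← Equiv.sum_comp e (fun m => f m * v m)]
    exact Finset.sum_congr rfl fun m _ => by rw [hu]
  have k2 : ∀ f : ι → ℝ, ∑ m, f (e m) * v m = ∑ m, f m * u m := by
    intro f
    rw [← Equiv.sum_comp e (fun m => f m * u m)]
    exact Finset.sum_congr rfl fun m _ => by rw [hv]
  have k3 : ∀ f : ι → ℝ, ∑ m, f (e m) = ∑ m, f m := fun f => Equiv.sum_comp e f
  refine ⟨a, c, b, M, L, v', u', fun m => w' (e m), fun m => w (e m), fun m => s (e m), ha, hc, hb,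
    hM, hL, conc3_symm hC, fun m => hw' _, ?_, ?_, ?_, fun m => hw _, ?_, ?_, ?_, fun m => hs _,
    ?_, ?_⟩
  · rw [k3]; exact hw1'
  · rw [k1]; exact hwu'
  · rw [k2]; exact hwv'
  · rw [k3]; exact hw1
  · rw [k2]; exact hwu
  · rw [k1]; exact hwv
  · rw [k1, k3]; linarith
  · rw [k2, k3]; linarith

end reals

/-- what has to be known about the line `(u0, v0)` -/
def LineP (C : List (ℤ × ℤ)) (u0 v0 : ℤ) : Prop :=
  0 ≤ S6 u0 ∧ 0 ≤ S6 v0 ∧ (Real.exp (-S6 u0) + Real.exp (-S6 v0) ≤ 1 ∨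
    ∃ (qr qb : ℝ) (cs : List (ℝ × ℝ)), Covers cs (1 - qb) qr ∧
      (∀ z ∈ cs, Step3 (ru3 C) (rv3 C) (S6 u0) (S6 v0) z.1 z.2) ∧
      (Real.exp (-S6 u0) ≤ qr ∨ StepCP CertI (ru3 C) (rv3 C) (S6 u0) (S6 v0) qr) ∧
      (Real.exp (-S6 v0) ≤ qb ∨ StepCP CertI (rv3 C) (ru3 C) (S6 v0) (S6 u0) qb))

theorem stepCP_flip {C : List (ℤ × ℤ)} {x y q : ℝ} (h : StepCP CertI (ru3 C) (rv3 C) x y q) :
    StepCP CertI (rv3 C) (ru3 C) x y q := stepCP_swap (flip3 _) rv3_flip ru3_flip h

theorem R_S6 (n : ℤ) : R (n * 1000000000000) = S6 n := by unfold R S6 SC; push_cast; ring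

theorem two_of {C : List (ℤ × ℤ)} {u0 v0 q : ℤ} {x : T2} (h : twoChk C u0 v0 q x = true) :
    StepCP CertI (ru3 C) (rv3 C) (S6 u0) (S6 v0) (S6 q) := by
  unfold twoChk at h
  simp only [Bool.and_eq_true, decide_eq_true_eq] at h
  obtain ⟨⟨⟨⟨⟨⟨⟨⟨⟨⟨⟨⟨ha, ha1⟩, hq⟩, hq1⟩, hL⟩, hM⟩, h1⟩, h2⟩, e1⟩, i1⟩, i2⟩, i3⟩, hc⟩ := h
  have hC := certChk_sound hc
  rw [R_S6, R_S6, R_S6, R_S6] at hC
  have j1 : (su C x.w : ℝ) ≤ x.L * 1000000 := by exact_mod_cast i1
  have j2 : (x.L : ℝ) * 1000000 + su C x.s ≤ (1000000 + x.a + sw x.s) * u0 := by exact_mod_cast i2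
  have j3 : (x.M : ℝ) * 1000000 + sv C x.w + sv C x.s ≤ (1000000 + x.a + sw x.s) * v0 := by
    exact_mod_cast i3
  have one : S6 1000000 = 1 := by unfold S6; norm_num
  refine ⟨S6 x.a, S6 x.L, S6 x.M, (sv C x.w : ℝ) / 1000000000000, wf C x.w, wf C x.s, S6_pos ha,
    ?_, S6_pos hq, ?_, S6_nonneg hL, S6_nonneg hM, hC, wf_nonneg h1, ?_, ?_, ?_, wf_nonneg h2,
    ?_, ?_⟩
  · rw [← one]; exact S6_le ha1
  · rw [← one]; exact S6_lt hq1
  · rw [sum_wf_one h1, e1, one]
  · rw [sum_wf_u h1]; unfold S6; linarith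
  · rw [sum_wf_v h1]
  · rw [sum_wf_u h2, sum_wf_one h2]; unfold S6; linarith
  · rw [sum_wf_v h2, sum_wf_one h2]; unfold S6; linarith

theorem lineP_mirror {C : List (ℤ × ℤ)} {u0 v0 : ℤ} (h : LineP C u0 v0) : LineP C v0 u0 := by
  obtain ⟨h1, h2, h3⟩ := h
  refine ⟨h2, h1, ?_⟩
  rcases h3 with h3 | ⟨qr, qb, cs, hc, hs, hu, hv⟩
  · left; rwa [add_comm] at h3
  · right
    refine ⟨qb, qr, cs.map fun z => (z.2, z.1), ?_, ?_, hv.imp_right ?_, hu.imp_right ?_⟩
    · intro d hd1 hd2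
      obtain ⟨z, hz, hz1, hz2⟩ := hc (1 - d) (by linarith) (by linarith)
      exact ⟨(z.2, z.1), List.mem_map.2 ⟨z, hz, rfl⟩, by show z.2 < d; linarith,
        by show d < 1 - z.1; linarith⟩
    · intro z hz
      rw [List.mem_map] at hz
      obtain ⟨z', hz', rfl⟩ := hz
      exact step3_mirror (flip3 _) rv3_flip ru3_flip (hs z' hz')
    · exact fun h => stepCP_swap (flip3 _) ru3_flip rv3_flip h
    · exact fun h => stepCP_swap (flip3 _) rv3_flip ru3_flip h

theorem exp_le_of_iv {n q : ℤ} (h1 : Iv.ok (Iv.pt (-n * 1000000000000)) = true)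
    (h2 : (Iv.exp (Iv.pt (-n * 1000000000000))).hi ≤ q * 1000000000000) :
    Real.exp (-S6 n) ≤ S6 q := by
  have h3 := ((mem_R (-n * 1000000000000)).exp h1).ge_of h2
  have e1 : R (-n * 1000000000000) = -S6 n := by unfold R S6 SC; push_cast; ring
  have e2 : (((q * 1000000000000 : ℤ)) : ℝ) / SC = S6 q := by unfold S6 SC; push_cast; ring
  rwa [e1, e2] at h3

theorem side_of {C : List (ℤ × ℤ)} {u0 v0 q : ℤ} {o : Option T2}
    (h1 : Iv.ok (Iv.pt (-u0 * 1000000000000)) = true) (h : sideChk C u0 v0 q o = true) :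
    Real.exp (-S6 u0) ≤ S6 q ∨ StepCP CertI (ru3 C) (rv3 C) (S6 u0) (S6 v0) (S6 q) := by
  cases o with
  | none =>
    unfold sideChk at h
    rw [decide_eq_true_eq] at h
    exact Or.inl (exp_le_of_iv h1 h)
  | some x => exact Or.inr (two_of h)

theorem lineP_of_check {C : List (ℤ × ℤ)} {d : Ln3} (h : lineChk3 C d = true)
    (hc : ∀ z ∈ d.cs, CellOK z) : LineP C d.u d.v := by
  unfold lineChk3 at h
  rw [Bool.and_eq_true, Bool.and_eq_true, Bool.and_eq_true, Bool.and_eq_true,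
    decide_eq_true_eq, decide_eq_true_eq] at h
  obtain ⟨⟨⟨⟨hu, hv⟩, k1⟩, k2⟩, h⟩ := h
  refine ⟨S6_nonneg hu, S6_nonneg hv, ?_⟩
  rcases hes : d.es with _ | _
  · right
    rw [hes] at h
    simp only [cond_false, Bool.and_eq_true, decide_eq_true_eq] at h
    obtain ⟨⟨⟨g1, g2⟩, g3⟩, g4⟩ := h
    refine ⟨S6 d.qr, S6 d.qb, d.cs.map fun z => (S6 z.q, S6 z.p), ?_, ?_, side_of k1 g1,
      (side_of k2 g2).imp_right stepCP_flip⟩
    · have := covers_of_chain _ _ _ (chain_of _ _ _ g3)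
      rwa [S6_one_sub] at this
    · intro z hz
      rw [List.mem_map] at hz
      obtain ⟨z', hz', rfl⟩ := hz
      rw [List.all_eq_true] at g4
      exact step3_of (g4 z' hz') (hc z' hz')
  · left
    rw [hes] at h
    simp only [cond_true, decide_eq_true_eq] at h
    have h3 := (((mem_R (-d.u * 1000000000000)).exp k1).add
      ((mem_R (-d.v * 1000000000000)).exp k2)).ge_of (p := SC) h
    have e1 : R (-d.u * 1000000000000) = -S6 d.u := by unfold R S6 SC; push_cast; ring
    have e2 : R (-d.v * 1000000000000) = -S6 d.v := by unfold R S6 SC; push_cast; ring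
    rwa [e1, e2, div_self SC_posR.ne'] at h3

/-- All lines of a checked family are good. -/
theorem good_of_lines (hT : T1P CertI) {C : List (ℤ × ℤ)}
    (h : ∀ j : Fin C.length, LineP C C[j].1 C[j].2) (i : Fin C.length × Bool) :
    Good (ru3 C i) (rv3 C i) := by
  have key : ∀ i : Fin C.length × Bool, LineP C (cu C i.1 i.2) (cv C i.1 i.2) := by
    rintro ⟨j, b⟩
    have e1 : cu C j false = C[j].1 := by unfold cu; simp
    have e2 : cu C j true = C[j].2 := by unfold cu; simp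
    cases b
    · show LineP C (cu C j false) (cu C j true)
      rw [e1, e2]; exact h j
    · show LineP C (cu C j true) (cu C j false)
      rw [e1, e2]; exact lineP_mirror (h j)
  refine bootstrap3 hT _ (ru3 C) (rv3 C) (fun i => (key i).1) (fun i => (key i).2.1) ?_ i
  intro i
  obtain ⟨_, _, h3⟩ := key i
  rcases h3 with h3 | ⟨qr, qb, cs, hc, hs, hu, hv⟩
  · exact Or.inl h3
  · exact Or.inr ⟨qr, qb, cs, hc, hs, hu, hv⟩

end Pool.Agent.H56.RM
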