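import Pool.Agent.H56.RM.Cells2
import Pool.Agent.H26.RM.ShpA
import Pool.Agent.H26.RM.ShpB
import Pool.Agent.H26.RM.ShpC

/-!
The three shapes of the polynomial kernel.
-/

namespace Pool.Agent.H56.RM

open Pool.Agent.H34.RM Pool.Agent.H18.RM.K

theorem shpOK_mk {S LS T LT LA LB L1 : ℤ} {s t la lb l1 : ℝ} {cf : ℕ → ℕ → ℝ}
    (hb : chkBase S LS T LT LA LB L1 = true)
    (es : (S : ℝ) / 1000000 = s) (et : (T : ℝ) / 1000000 = t) (ea : (LA : ℝ) / 1000000 = la)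
    (eb : (LB : ℝ) / 1000000 = lb) (el : (L1 : ℝ) / 1000000 = l1)
    (h0 : ∀ i j, 0 ≤ cf i j) (h1 : cf 0 0 = 1)
    (hr : ∀ y z : ℝ, pol 6 cf y z ≤ la * Real.exp (y + t * z) +
      l1 * (Real.exp y + Real.exp z))
    (hl : ∀ y z : ℝ, pol 6 cf y z ≤ lb * Real.exp (z + s * y) +
      l1 * (Real.exp y + Real.exp z))
    (hg : ∀ y z : ℝ, pol 6 cf y z ≤ 100 * (1 + (max y 0) ^ 5 + (max z 0) ^ 5)) :
    ShpOK ⟨S, LS, T, LT, LA, LB, L1⟩ := by
  subst es et ea eb el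
  exact ⟨hb, 6, cf, 100, 5, by norm_num, h0, h1, by norm_num, hr, hl, hg⟩

/-- shape A -/
theorem shA : ShpOK ⟨320000, -385662, 327500, -396753, 1151000, 1191000, 1⟩ :=
  shpOK_mk (by decide +kernel) (s := 8 / 25) (t := 131 / 400) (la := 1151 / 1000)
    (lb := 1191 / 1000) (l1 := 1 / 10 ^ 6) (by norm_num) (by norm_num) (by norm_num)
    (by norm_num) (by norm_num) Pool.Agent.H26.RM.ShpA.cf_nonneg Pool.Agent.H26.RM.ShpA.cf_zero
    Pool.Agent.H26.RM.ShpA.cert_red Pool.Agent.H26.RM.ShpA.cert_blue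
    Pool.Agent.H26.RM.ShpA.growth

/-- shape B -/
theorem shB : ShpOK ⟨271500, -316767, 305000, -363843, 1121000, 1331000, 1⟩ :=
  shpOK_mk (by decide +kernel) (s := 543 / 2000) (t := 61 / 200) (la := 1121 / 1000)
    (lb := 1331 / 1000) (l1 := 1 / 10 ^ 6) (by norm_num) (by norm_num) (by norm_num)
    (by norm_num) (by norm_num) Pool.Agent.H26.RM.ShpB.cf_nonneg Pool.Agent.H26.RM.ShpB.cf_zero
    Pool.Agent.H26.RM.ShpB.cert_red Pool.Agent.H26.RM.ShpB.cert_blue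
    Pool.Agent.H26.RM.ShpB.growth

/-- shape C -/
theorem shC : ShpOK ⟨183500, -202728, 251000, -289016, 1108000, 1756000, 1⟩ :=
  shpOK_mk (by decide +kernel) (s := 367 / 2000) (t := 251 / 1000) (la := 277 / 250)
    (lb := 439 / 250) (l1 := 1 / 10 ^ 6) (by norm_num) (by norm_num) (by norm_num)
    (by norm_num) (by norm_num) Pool.Agent.H26.RM.ShpC.cf_nonneg Pool.Agent.H26.RM.ShpC.cf_zero
    Pool.Agent.H26.RM.ShpC.cert_red Pool.Agent.H26.RM.ShpC.cert_blue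
    Pool.Agent.H26.RM.ShpC.growth

end Pool.Agent.H56.RM
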