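import Pool.Agent.H56.RM.D4.Top
import Pool.Agent.H56.RM.Shapes
import Pool.Agent.H34.RM.Main
import Pool.Agent.H98.RM.Mirror
import Pool.Agent.H98.RM.Diag
import Pool.Agent.H56.Ramsey.TopT

/-!
The diagonal bound from the family D4: `R(k,k) ≤ 3.118 ^ k` for large `k`.
-/

open Finset Filter

namespace Pool.Agent.H56.RM

open Pool.Agent.H92 Pool.Agent.H56.Ramsey Pool.Agent.H56.Ramsey.Iv Pool.Agent.H98.RM

theorem shapes_ok : ∀ x ∈ D4.shapes, ShpOK x := by
  intro x hx
  simp only [D4.shapes, List.mem_cons, List.not_mem_nil, or_false] at hx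
  rcases hx with rfl | rfl | rfl
  · exact shA
  · exact shB
  · exact shC

/-- the diagonal bound -/
theorem goodDiag3118 : GoodDiag (S6 1137148) :=
  D4.goodDiag t1I Pool.Agent.H34.RM.t3 shapes_ok (diagStep3 t1I)

theorem exponent3118 : S6 1137148 < Real.log 3.118 := by
  rw [Real.lt_log_iff_exp_lt (by norm_num)]
  have h := ((mem_R (1137148 * 1000000000000)).exp (by decide +kernel)).ge_of
    (p := 3117999000000000000) (by decide +kernel)
  have hS : (SC : ℝ) = 10 ^ 18 := by unfold SC; norm_num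
  have e : R (1137148 * 1000000000000) = S6 1137148 := by
    unfold R S6
    rw [hS]
    push_cast
    norm_num
  rw [hS, e] at h
  refine lt_of_le_of_lt h ?_
  norm_num

/-- `R(k,k) ≤ 3.118 ^ k` for all sufficiently large `k`. -/
theorem eventually3118 : ∀ᶠ k : ℕ in atTop, (ramseyNumber k : ℝ) ≤ (3.118 : ℝ) ^ k :=
  eventually_ramseyNumber_le_pow_of_goodDiag goodDiag3118 (by norm_num) exponent3118

end Pool.Agent.H56.RM
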