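import Pool.Agent.H56.RM.Cells2
import Pool.Agent.H48.RMJ.Base

/-!
The universal shape of the polynomial kernel (not used in the final family).
-/

namespace Pool.Agent.H56.RM

open Pool.Agent.H34.RM Pool.Agent.H18.RM.K

/-- the shape of `H48.RMJ` -/
def shU : Shp := ⟨400000, -510825, 400000, -510825, 1110000, 1110000, 1⟩

theorem shU_ok : ShpOK shU := by
  have e1 : ((400000 : ℤ) : ℝ) / 1000000 = 2 / 5 := by norm_num
  have e2 : ((1110000 : ℤ) : ℝ) / 1000000 = 111 / 100 := by norm_num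
  have e3 : ((1 : ℤ) : ℝ) / 1000000 = 1 / 1000000 := by norm_num
  refine ⟨by decide +kernel, 6, Pool.Agent.H48.RMJ.cf0, 40, 5, by norm_num, Pool.Agent.H48.RMJ.cf0_nonneg,
    Pool.Agent.H48.RMJ.cf0_zero, by norm_num, ?_, ?_, Pool.Agent.H48.RMJ.growth⟩
  · show ∀ y z : ℝ, _ ≤ ((1110000 : ℤ) : ℝ) / 1000000 * Real.exp (y + ((400000 : ℤ) : ℝ) / 1000000 * z)
      + ((1 : ℤ) : ℝ) / 1000000 * (Real.exp y + Real.exp z)
    rw [e1, e2, e3]
    exact Pool.Agent.H48.RMJ.cert_red (by norm_num)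
  · show ∀ y z : ℝ, _ ≤ ((1110000 : ℤ) : ℝ) / 1000000 * Real.exp (z + ((400000 : ℤ) : ℝ) / 1000000 * y)
      + ((1 : ℤ) : ℝ) / 1000000 * (Real.exp y + Real.exp z)
    rw [e1, e2, e3]
    exact Pool.Agent.H48.RMJ.cert_blue (by norm_num)

end Pool.Agent.H56.RM
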