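import Pool.Agent.H56.RM.Box

/-!
Interval version of the box bound and the subdivision tree.
-/

open Finset

namespace Pool.Agent.H56.RM

open Pool.Agent.H56.Ramsey Iv

/-- shape data (scaled integers) -/
structure SD where
  /-- tilt -/
  t : ℤ
  /-- constant -/
  w0 : ℤ
  /-- coefficient of `y` -/
  w1 : ℤ
  /-- coefficient of `z` -/
  w2 : ℤ
  /-- coefficient of the product -/
  om : ℤ
  /-- rate in `y` -/
  mu : ℤ
  /-- rate in `z` -/
  mv : ℤ
  /-- factor -/
  la : ℤ

/-- absolute value -/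
def iabs (I : Iv) : Iv := ⟨0, mx (-I.lo) I.hi⟩

theorem mem_iabs {x : ℝ} {I : Iv} (h : Mem x I) : Mem |x| (iabs I) := by
  have hS := SC_posR
  unfold iabs Mem
  rw [mx_eq]
  push_cast
  constructor
  · positivity
  · have : |x| * SC = |x * SC| := by rw [abs_mul, abs_of_pos hS]
    rw [this, abs_le]
    have h1 := h.1
    have h2 := h.2
    constructor
    · have := le_max_left (-(I.lo : ℝ)) (I.hi : ℝ)
      linarith
    · exact h2.trans (le_max_right _ _)

section

variable (S : SD) (E G : Iv) (y z r s : ℤ)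

/-- interval coefficient -/
def i00 : Iv :=
  sub (sub (sub (sub E (pt S.w0)) (mul (pt S.w1) (pt y))) (mul (pt S.w2) (pt z)))
    (mul G (mul (pt y) (pt z)))
/-- interval coefficient -/
def i10 : Iv := sub (sub E (pt S.w1)) (mul G (add (pt z) (mul (pt S.mu) (mul (pt y) (pt z)))))
/-- interval coefficient -/
def i01 : Iv :=
  sub (sub (mul (pt S.t) E) (pt S.w2)) (mul G (add (pt y) (mul (pt S.mv) (mul (pt y) (pt z)))))
/-- interval coefficient -/
def i20 : Iv :=
  sub (dv E 2) (mul G (add (mul (pt S.mu) (pt z))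
    (dv (mul (mul (pt S.mu) (pt S.mu)) (mul (pt y) (pt z))) 2)))
/-- interval coefficient -/
def i11 : Iv :=
  sub (mul (pt S.t) E) (mul G (add (add (add (pt SC) (mul (pt S.mu) (pt y)))
    (mul (pt S.mv) (pt z))) (mul (mul (pt S.mu) (pt S.mv)) (mul (pt y) (pt z)))))
/-- interval coefficient -/
def i02 : Iv :=
  sub (dv (mul (mul (pt S.t) (pt S.t)) E) 2) (mul G (add (mul (pt S.mv) (pt y))
    (dv (mul (mul (pt S.mv) (pt S.mv)) (mul (pt y) (pt z))) 2)))
/-- radius -/
def iX : Iv := add (pt r) (mul (pt S.t) (pt s))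
/-- radius -/
def iM : Iv := add (mul (pt S.mu) (pt r)) (mul (pt S.mv) (pt s))
/-- error -/
def ier : Iv :=
  add (dv (mul (add E E) (mul (iX S r s) (mul (iX S r s) (iX S r s)))) 9)
    (mul G (add (add (dv (mul (add (mul (iabs (pt z)) (pt r)) (mul (iabs (pt y)) (pt s)))
        (mul (iM S r s) (iM S r s))) 2)
      (mul (mul (pt r) (pt s)) (add (iM S r s) (dv (mul (iM S r s) (iM S r s)) 2))))
      (dv (mul (mul (add (add (iabs (pt y)) (pt r)) (add (iabs (pt y)) (pt r)))
        (add (iabs (pt z)) (pt s)))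
        (mul (iM S r s) (mul (iM S r s) (iM S r s)))) 9)))

/-- argument of the first exponential -/
def argE : Iv := add (pt y) (mul (pt S.t) (pt z))
/-- argument of the second exponential -/
def argG : Iv := add (mul (pt S.mu) (pt y)) (mul (pt S.mv) (pt z))

/-- common part of the checks -/
def pre : Bool :=
  ok (argE S y z) && ok (argG S y z) && decide ((iX S r s).hi ≤ SC) && decide ((iM S r s).hi ≤ SC)

/-- first check -/
def chkA : Bool :=
  let E := mul (pt S.la) (exp (argE S y z))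
  let G := mul (pt S.om) (exp (argG S y z))
  pre S y z r s &&
  decide (0 < (sub (sub (sub (sub (sub (sub (i00 S E G y z) (mul (iabs (i10 S E G y z)) (pt r)))
    (mul (iabs (i01 S E G y z)) (pt s))) (mul (iabs (i20 S E G y z)) (mul (pt r) (pt r))))
    (mul (iabs (i11 S E G y z)) (mul (pt r) (pt s))))
    (mul (iabs (i02 S E G y z)) (mul (pt s) (pt s)))) (ier S E G y z r s)).lo)

/-- four times -/
def q4 (I : Iv) : Iv := add (add I I) (add I I)

/-- second check -/
def chkB : Bool :=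
  let E := mul (pt S.la) (exp (argE S y z))
  let G := mul (pt S.om) (exp (argG S y z))
  let c00 := sub (i00 S E G y z) (ier S E G y z r s)
  let c10 := i10 S E G y z
  let c01 := i01 S E G y z
  let c20 := i20 S E G y z
  let c11 := i11 S E G y z
  let c02 := i02 S E G y z
  let K0 := sub (mul (q4 c20) c00) (mul c10 c10)
  let K1 := sub (mul (q4 c20) c01) (mul (add c10 c10) c11)
  let K2 := sub (mul (q4 c20) c02) (mul c11 c11)
  let K1s := mul (iabs K1) (pt s)
  pre S y z r s && decide (0 < c20.lo) &&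
  decide (0 < (sub K0 K1s).lo) &&
  decide (0 < (add (sub K0 K1s) (mul K2 (mul (pt s) (pt s)))).lo)

end

/-- admissibility of the data -/
def SD.adm (S : SD) : Prop := 0 ≤ S.t ∧ 0 ≤ S.om ∧ 0 ≤ S.mu ∧ 0 ≤ S.mv ∧ 0 ≤ S.la

/-- the function of a shape -/
noncomputable def SD.F (S : SD) (y z : ℝ) : ℝ :=
  FF (R S.t) (R S.w0) (R S.w1) (R S.w2) (R S.om) (R S.mu) (R S.mv) (R S.la) y z

theorem abs_bd {c d ρ : ℝ} (h : |c| ≤ ρ) : -(|d| * ρ) ≤ d * c := by
  have h1 : |d * c| ≤ |d| * ρ := by rw [abs_mul]; exact mul_le_mul_of_nonneg_left h (abs_nonneg _)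
  have := (abs_le.1 h1).1
  linarith

theorem lin_bd {c d ρ : ℝ} (h : |c| ≤ |ρ|) : -(|d| * |ρ|) ≤ d * c := abs_bd h

section mem

variable {S : SD} {E G : Iv} {x g : ℝ} (hE : Mem x E) (hG : Mem g G) (y z r s : ℤ)
include hE hG

theorem mem_i00 : Mem (r00 (R S.w0) (R S.w1) (R S.w2) x g (R y) (R z)) (i00 S E G y z) :=
  (((hE.sub (mem_R _)).sub ((mem_R _).mul (mem_R _))).sub ((mem_R _).mul (mem_R _))).sub
    (hG.mul ((mem_R _).mul (mem_R _)))

theorem mem_i10 : Mem (r10 (R S.w1) (R S.mu) x g (R y) (R z)) (i10 S E G y z) :=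
  (hE.sub (mem_R _)).sub (hG.mul ((mem_R _).add ((mem_R _).mul ((mem_R _).mul (mem_R _)))))

theorem mem_i01 : Mem (r01 (R S.t) (R S.w2) (R S.mv) x g (R y) (R z)) (i01 S E G y z) :=
  (((mem_R _).mul hE).sub (mem_R _)).sub
    (hG.mul ((mem_R _).add ((mem_R _).mul ((mem_R _).mul (mem_R _)))))

theorem mem_i20 : Mem (r20 (R S.mu) x g (R y) (R z)) (i20 S E G y z) :=
  (hE.dv (by norm_num)).sub (hG.mul (((mem_R _).mul (mem_R _)).add
    ((((mem_R _).mul (mem_R _)).mul ((mem_R _).mul (mem_R _))).dv (by norm_num))))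

theorem mem_i11 : Mem (r11 (R S.t) (R S.mu) (R S.mv) x g (R y) (R z)) (i11 S E G y z) :=
  ((mem_R _).mul hE).sub (hG.mul (((mem_one.add ((mem_R _).mul (mem_R _))).add
    ((mem_R _).mul (mem_R _))).add (((mem_R _).mul (mem_R _)).mul ((mem_R _).mul (mem_R _)))))

theorem mem_i02 : Mem (r02 (R S.t) (R S.mv) x g (R y) (R z)) (i02 S E G y z) :=
  ((((mem_R _).mul (mem_R _)).mul hE).dv (by norm_num)).sub
    (hG.mul (((mem_R _).mul (mem_R _)).add
      ((((mem_R _).mul (mem_R _)).mul ((mem_R _).mul (mem_R _))).dv (by norm_num))))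

omit hE hG in
theorem mem_iX : Mem (R r + R S.t * R s) (iX S r s) := (mem_R _).add ((mem_R _).mul (mem_R _))

omit hE hG in
theorem mem_iM : Mem (R S.mu * R r + R S.mv * R s) (iM S r s) :=
  ((mem_R _).mul (mem_R _)).add ((mem_R _).mul (mem_R _))

theorem mem_ier : Mem (rer (R S.t) (R S.mu) (R S.mv) x g |R y| |R z| (R r) (R s))
    (ier S E G y z r s) := by
  have hX := mem_iX (S := S) r s
  have hM := mem_iM (S := S) r s
  have hy := mem_iabs (mem_R y)
  have hz := mem_iabs (mem_R z)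
  exact (((hE.add hE).mul (hX.mul (hX.mul hX))).dv (by norm_num)).add
    (hG.mul ((((((hz.mul (mem_R _)).add (hy.mul (mem_R _))).mul (hM.mul hM)).dv
      (by norm_num)).add (((mem_R _).mul (mem_R _)).mul (hM.add ((hM.mul hM).dv
      (by norm_num))))).add (((((hy.add (mem_R _)).add (hy.add (mem_R _))).mul
        (hz.add (mem_R _))).mul (hM.mul (hM.mul hM))).dv (by norm_num))))

end mem

theorem pos_of_decide {x : ℝ} {I : Iv} (hx : Mem x I) (h : 0 < I.lo) : 0 < x := hx.pos_of h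

theorem le_one_of {x : ℝ} {I : Iv} (hx : Mem x I) (h : I.hi ≤ SC) : x ≤ 1 := by
  have := hx.ge_of h
  rwa [div_self SC_posR.ne'] at this

theorem chkA_sound {S : SD} (hS : S.adm) {y z r s : ℤ} (h : chkA S y z r s = true) {u v : ℝ}
    (hu : |u| ≤ R r) (hv : |v| ≤ R s) : 0 < S.F (R y + u) (R z + v) := by
  unfold chkA at h
  simp only [pre, Bool.and_eq_true, decide_eq_true_eq] at h
  obtain ⟨⟨⟨⟨h1, h2⟩, h3⟩, h4⟩, h5⟩ := h
  have hE : Mem (R S.la * Real.exp (R y + R S.t * R z)) (mul (pt S.la) (Iv.exp (argE S y z))) :=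
    (mem_R _).mul (((mem_R _).add ((mem_R _).mul (mem_R _))).exp h1)
  have hG : Mem (R S.om * Real.exp (R S.mu * R y + R S.mv * R z))
      (mul (pt S.om) (Iv.exp (argG S y z))) :=
    (mem_R _).mul ((((mem_R _).mul (mem_R _)).add ((mem_R _).mul (mem_R _))).exp h2)
  have hb := box_real (w0 := R S.w0) (w1 := R S.w1) (w2 := R S.w2) (R_nonneg hS.1)
    (R_nonneg hS.2.2.1) (R_nonneg hS.2.2.2.1)
    (R_nonneg hS.2.2.2.2) (R_nonneg hS.2.1) hu hv (le_one_of (mem_iX (S := S) r s) h3)
    (le_one_of (mem_iM (S := S) r s) h4) (le_refl |R y|) (le_refl |R z|)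
  simp only at hb
  unfold SD.F
  refine lt_of_lt_of_le ?_ hb
  have hr : 0 ≤ R r := (abs_nonneg u).trans hu
  have hs : 0 ≤ R s := (abs_nonneg v).trans hv
  have hm := ((((((mem_i00 (S := S) hE hG y z).sub
    ((mem_iabs (mem_i10 (S := S) hE hG y z)).mul (mem_R r))).sub
    ((mem_iabs (mem_i01 (S := S) hE hG y z)).mul (mem_R s))).sub
    ((mem_iabs (mem_i20 (S := S) hE hG y z)).mul ((mem_R r).mul (mem_R r)))).sub
    ((mem_iabs (mem_i11 (S := S) hE hG y z)).mul ((mem_R r).mul (mem_R s)))).sub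
    ((mem_iabs (mem_i02 (S := S) hE hG y z)).mul ((mem_R s).mul (mem_R s)))).sub
    (mem_ier (S := S) hE hG y z r s)
  have hpos := hm.pos_of h5
  have a1 := abs_bd (d := r10 (R S.w1) (R S.mu) (R S.la * Real.exp (R y + R S.t * R z))
    (R S.om * Real.exp (R S.mu * R y + R S.mv * R z)) (R y) (R z)) hu
  have a2 := abs_bd (d := r01 (R S.t) (R S.w2) (R S.mv) (R S.la * Real.exp (R y + R S.t * R z))
    (R S.om * Real.exp (R S.mu * R y + R S.mv * R z)) (R y) (R z)) hv
  have b3 : |u ^ 2| ≤ R r * R r := by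
    rw [pow_two, abs_mul]; exact mul_le_mul hu hu (abs_nonneg _) hr
  have b4 : |u * v| ≤ R r * R s := by
    rw [abs_mul]; exact mul_le_mul hu hv (abs_nonneg _) hr
  have b5 : |v ^ 2| ≤ R s * R s := by
    rw [pow_two, abs_mul]; exact mul_le_mul hv hv (abs_nonneg _) hs
  have a3 := abs_bd (d := r20 (R S.mu) (R S.la * Real.exp (R y + R S.t * R z))
    (R S.om * Real.exp (R S.mu * R y + R S.mv * R z)) (R y) (R z)) b3
  have a4 := abs_bd (d := r11 (R S.t) (R S.mu) (R S.mv) (R S.la * Real.exp (R y + R S.t * R z))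
    (R S.om * Real.exp (R S.mu * R y + R S.mv * R z)) (R y) (R z)) b4
  have a5 := abs_bd (d := r02 (R S.t) (R S.mv) (R S.la * Real.exp (R y + R S.t * R z))
    (R S.om * Real.exp (R S.mu * R y + R S.mv * R z)) (R y) (R z)) b5
  linarith

theorem quad_pos {K0 K1 K2 s v : ℝ} (hv : |v| ≤ s) (h1 : 0 < K0 - |K1| * s)
    (h2 : 0 < K0 - |K1| * s + K2 * (s * s)) : 0 < K0 + K1 * v + K2 * v ^ 2 := by
  have a1 := abs_bd (d := K1) hv
  have hs : 0 ≤ s := (abs_nonneg v).trans hv
  have hv2 : v ^ 2 ≤ s * s := by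
    rw [← sq_abs v, pow_two]; exact mul_le_mul hv hv (abs_nonneg _) hs
  rcases le_total 0 K2 with h | h
  · have := mul_nonneg h (sq_nonneg v)
    linarith
  · have := mul_le_mul_of_nonpos_left hv2 h
    linarith

theorem mem_q4 {x : ℝ} {I : Iv} (h : Mem x I) : Mem (4 * x) (q4 I) := by
  have := (h.add h).add (h.add h)
  have e : 4 * x = x + x + (x + x) := by ring
  rw [e]; exact this

theorem chkB_sound {S : SD} (hS : S.adm) {y z r s : ℤ} (h : chkB S y z r s = true) {u v : ℝ}
    (hu : |u| ≤ R r) (hv : |v| ≤ R s) : 0 < S.F (R y + u) (R z + v) := by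
  unfold chkB at h
  simp only [pre, Bool.and_eq_true, decide_eq_true_eq] at h
  obtain ⟨⟨⟨⟨⟨⟨h1, h2⟩, h3⟩, h4⟩, h5⟩, h6⟩, h7⟩ := h
  have hE : Mem (R S.la * Real.exp (R y + R S.t * R z)) (mul (pt S.la) (Iv.exp (argE S y z))) :=
    (mem_R _).mul (((mem_R _).add ((mem_R _).mul (mem_R _))).exp h1)
  have hG : Mem (R S.om * Real.exp (R S.mu * R y + R S.mv * R z))
      (mul (pt S.om) (Iv.exp (argG S y z))) :=
    (mem_R _).mul ((((mem_R _).mul (mem_R _)).add ((mem_R _).mul (mem_R _))).exp h2)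
  have hb := box_real (w0 := R S.w0) (w1 := R S.w1) (w2 := R S.w2) (R_nonneg hS.1)
    (R_nonneg hS.2.2.1) (R_nonneg hS.2.2.2.1)
    (R_nonneg hS.2.2.2.2) (R_nonneg hS.2.1) hu hv (le_one_of (mem_iX (S := S) r s) h3)
    (le_one_of (mem_iM (S := S) r s) h4) (le_refl |R y|) (le_refl |R z|)
  simp only at hb
  unfold SD.F
  refine lt_of_lt_of_le ?_ hb
  have m00 := mem_i00 (S := S) hE hG y z
  have mer := mem_ier (S := S) hE hG y z r s
  have m10 := mem_i10 (S := S) hE hG y z
  have m01 := mem_i01 (S := S) hE hG y z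
  have m20 := mem_i20 (S := S) hE hG y z
  have m11 := mem_i11 (S := S) hE hG y z
  have m02 := mem_i02 (S := S) hE hG y z
  have mc := m00.sub mer
  have k0 := ((mem_q4 m20).mul mc).sub (m10.mul m10)
  have k1 := ((mem_q4 m20).mul m01).sub ((m10.add m10).mul m11)
  have k2 := ((mem_q4 m20).mul m02).sub (m11.mul m11)
  have p1 := (k0.sub ((mem_iabs k1).mul (mem_R s))).pos_of h6
  have p2 := ((k0.sub ((mem_iabs k1).mul (mem_R s))).add
    (k2.mul ((mem_R s).mul (mem_R s)))).pos_of h7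
  have p3 := quad_pos hv p1 p2
  have p4 := m20.pos_of h5
  generalize r00 (R S.w0) (R S.w1) (R S.w2) (R S.la * Real.exp (R y + R S.t * R z))
    (R S.om * Real.exp (R S.mu * R y + R S.mv * R z)) (R y) (R z) = c00 at *
  generalize r10 (R S.w1) (R S.mu) (R S.la * Real.exp (R y + R S.t * R z))
    (R S.om * Real.exp (R S.mu * R y + R S.mv * R z)) (R y) (R z) = c10 at *
  generalize r01 (R S.t) (R S.w2) (R S.mv) (R S.la * Real.exp (R y + R S.t * R z))
    (R S.om * Real.exp (R S.mu * R y + R S.mv * R z)) (R y) (R z) = c01 at *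
  generalize r20 (R S.mu) (R S.la * Real.exp (R y + R S.t * R z))
    (R S.om * Real.exp (R S.mu * R y + R S.mv * R z)) (R y) (R z) = c20 at *
  generalize r11 (R S.t) (R S.mu) (R S.mv) (R S.la * Real.exp (R y + R S.t * R z))
    (R S.om * Real.exp (R S.mu * R y + R S.mv * R z)) (R y) (R z) = c11 at *
  generalize r02 (R S.t) (R S.mv) (R S.la * Real.exp (R y + R S.t * R z))
    (R S.om * Real.exp (R S.mu * R y + R S.mv * R z)) (R y) (R z) = c02 at *
  generalize rer (R S.t) (R S.mu) (R S.mv) (R S.la * Real.exp (R y + R S.t * R z))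
    (R S.om * Real.exp (R S.mu * R y + R S.mv * R z)) |R y| |R z| (R r) (R s) = er at *
  have e : 4 * c20 * (c00 + c10 * u + c01 * v + c20 * u ^ 2 + c11 * (u * v) + c02 * v ^ 2 - er)
      = (2 * c20 * u + c10 + c11 * v) ^ 2 + (4 * c20 * (c00 - er) - c10 * c10 +
        (4 * c20 * c01 - (c10 + c10) * c11) * v + (4 * c20 * c02 - c11 * c11) * v ^ 2) := by
    ring
  have p5 : 0 < 4 * c20 * (c00 + c10 * u + c01 * v + c20 * u ^ 2 + c11 * (u * v) + c02 * v ^ 2
      - er) := by
    rw [e]; have := sq_nonneg (2 * c20 * u + c10 + c11 * v); linarith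
  exact pos_of_mul_pos_right (by simpa using p5) (by linarith)

/-- subdivision tree -/
inductive Tr where
  /-- first check -/
  | A : Tr
  /-- second check -/
  | B : Tr
  /-- halve in `y` -/
  | Y (l r : Tr) : Tr
  /-- halve in `z` -/
  | Z (l r : Tr) : Tr

/-- check of a tree -/
def Tr.chk (S : SD) : Tr → ℤ → ℤ → ℤ → ℤ → Bool
  | .A, y, z, r, s => chkA S y z r s
  | .B, y, z, r, s => chkB S y z r s
  | .Y l r', y, z, r, s => decide (r % 2 = 0) && Tr.chk S l (y - r / 2) z (r / 2) s &&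
      Tr.chk S r' (y + r / 2) z (r / 2) s
  | .Z l r', y, z, r, s => decide (s % 2 = 0) && Tr.chk S l y (z - s / 2) r (s / 2) &&
      Tr.chk S r' y (z + s / 2) r (s / 2)

theorem R_half {r : ℤ} (h : r % 2 = 0) : R (r / 2) = R r / 2 := by
  have h1 : r = 2 * (r / 2) := by omega
  have h2 : R r = 2 * R (r / 2) := by
    conv_lhs => rw [h1]
    unfold R; push_cast; ring
  linarith

theorem chk_sound {S : SD} (hS : S.adm) (T : Tr) : ∀ {y z r s : ℤ}, T.chk S y z r s = true →
    ∀ {a b : ℝ}, |a - R y| ≤ R r → |b - R z| ≤ R s → 0 < S.F a b := by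
  induction T with
  | A =>
    intro y z r s h a b ha hb
    have := chkA_sound hS h ha hb
    simpa using this
  | B =>
    intro y z r s h a b ha hb
    have := chkB_sound hS h ha hb
    simpa using this
  | Y l r' ihl ihr =>
    intro y z r s h a b ha hb
    unfold Tr.chk at h
    simp only [Bool.and_eq_true, decide_eq_true_eq] at h
    obtain ⟨⟨h1, h2⟩, h3⟩ := h
    have hh := R_half h1
    rcases le_total a (R y) with hc | hc
    · refine ihl h2 ?_ hb
      rw [R_sub, hh, abs_le]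
      rw [abs_le] at ha
      constructor <;> linarith
    · refine ihr h3 ?_ hb
      rw [R_add, hh, abs_le]
      rw [abs_le] at ha
      constructor <;> linarith
  | Z l r' ihl ihr =>
    intro y z r s h a b ha hb
    unfold Tr.chk at h
    simp only [Bool.and_eq_true, decide_eq_true_eq] at h
    obtain ⟨⟨h1, h2⟩, h3⟩ := h
    have hh := R_half h1
    rcases le_total b (R z) with hc | hc
    · refine ihl h2 ha ?_
      rw [R_sub, hh, abs_le]
      rw [abs_le] at hb
      constructor <;> linarith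
    · refine ihr h3 ha ?_
      rw [R_add, hh, abs_le]
      rw [abs_le] at hb
      constructor <;> linarith

end Pool.Agent.H56.RM
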